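import Pool.Agent.helper16.EXG.Spec

/-!
# Row en5:GGA (MP_561ff4_al): from five conjugates of `x(t) t⁻¹` to ten conjugates of `x`
-/

set_option autoImplicit false

open Finset

namespace Pool.Agent.EXC

theorem GGA : GGA_stmt := by
  intro G _ _ x t g hg
  refine ⟨?_, ?_⟩
  · let h : Fin (5 + 5) → G := Fin.append g (fun i => g i * t)
    refine ⟨h, ?_⟩
    set H := Subgroup.closure (Set.range fun i : Fin 10 => MulAut.conj (h i) * x * (MulAut.conj (h i))⁻¹) with hH
    have h1 : ∀ i : Fin 10, MulAut.conj (h i) * x * (MulAut.conj (h i))⁻¹ ∈ H := fun i =>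
      Subgroup.subset_closure ⟨i, rfl⟩
    have h2 : ∀ i : Fin 5, (MulAut.conj (g i * (x t * t⁻¹) * (g i)⁻¹) : MulAut G) ∈ H := by
      intro i
      rw [T11GR2_conj]
      have h3 := h1 (Fin.castAdd 5 i)
      have h4 := h1 (Fin.natAdd 5 i)
      have e3 : h (Fin.castAdd 5 i) = g i := Fin.append_left g (fun i => g i * t) i
      have e4 : h (Fin.natAdd 5 i) = g i * t := Fin.append_right g (fun i => g i * t) i
      rw [e3] at h3
      rw [e4] at h4
      exact H.mul_mem h3 (H.inv_mem h4)
    have h6 : Subgroup.closure (Set.range fun i => g i * (x t * t⁻¹) * (g i)⁻¹) ≤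
        H.comap (MulAut.conj : G →* MulAut G) := by
      rw [Subgroup.closure_le]
      rintro y ⟨i, rfl⟩
      exact h2 i
    rintro _ ⟨z, rfl⟩
    have hz : z ∈ Subgroup.closure (Set.range fun i => g i * (x t * t⁻¹) * (g i)⁻¹) := by
      rw [hg]
      exact Subgroup.mem_top z
    exact h6 hz
  · intro hc r hr hrG
    haveI : Fact r.Prime := ⟨hr⟩
    obtain ⟨z, hz⟩ := exists_prime_orderOf_dvd_card' (G := G) r hrG
    refine k_GR2 G x t r 5 g z (by norm_num) (by rw [hg]; exact Subgroup.mem_top z) ?_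
    intro m hm
    rw [← hz]
    apply orderOf_dvd_of_pow_eq_one
    apply hc
    intro y
    have h7 : (MulAut.conj (z ^ m) : MulAut G) = 1 := by rw [map_pow]; exact hm
    have h8 : MulAut.conj (z ^ m) y = y := by rw [h7]; rfl
    rw [MulAut.conj_apply, mul_inv_eq_iff_eq_mul] at h8
    exact h8

end Pool.Agent.EXC
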